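import Mathlib
import Pool.Agent.Helper292.ForceCH
import Pool.Agent.TH769.K4Pos

/-!
# MP_185924_lc: the relation `α → (ω₁ · ω, 4)²`

`ω₁² · ω → (ω₁ · ω, 4)²` in ZFC, and under CH no smaller ordinal has this property; in particular
`ω₁² ↛ (ω₁ · ω, 4)²` under CH, and CH can be forced.
-/

set_option autoImplicit false

namespace Pool.Agent.Results.MP_185924_lc.ExactThreshold

/-- The relation `α → (ω₁ · ω, 4)²`: for every 2-colouring `c` of the pairs of ordinals below `α`
some subset of order type `ω₁ · ω` (the range of a strictly increasing map `f` on the ordinals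
below `ω₁ · ω`) has all its pairs in the first colour, or some four ordinals below `α` have all
their pairs in the second colour. The frozen statement `S14423` is `Arrow (ω₁ * ω₁)`. -/
def Arrow (α : Ordinal.{0}) : Prop :=
  ∀ c : Ordinal.{0} → Ordinal.{0} → Prop,
    (∃ f : Ordinal.{0} → Ordinal.{0},
        StrictMonoOn f (Set.Iio ((Cardinal.aleph 1).ord * Ordinal.omega0)) ∧
        (∀ x, x < (Cardinal.aleph 1).ord * Ordinal.omega0 → f x < α) ∧
        (∀ x y, x < y → y < (Cardinal.aleph 1).ord * Ordinal.omega0 → c (f x) (f y))) ∨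
    (∃ g : Fin 4 → Ordinal.{0},
        StrictMono g ∧ (∀ i, g i < α) ∧ (∀ i j, i < j → ¬ c (g i) (g j)))

/-- (1) Under CH, `ω₁² ↛ (ω₁ · ω, 4)²`. (2) Under CH, `α → (ω₁ · ω, 4)²` iff `α ≥ ω₁² · ω`.
(3) In ZFC, `α → (ω₁ · ω, 4)²` for all `α ≥ ω₁² · ω`. (4) There is a forcing notion every
condition of which forces that `ω₁` is preserved and that CH holds. -/
theorem result :
    (Cardinal.aleph.{0} 1 = Cardinal.continuum.{0} →
      ¬ Arrow ((Cardinal.aleph 1).ord * (Cardinal.aleph 1).ord)) ∧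
    (Cardinal.aleph.{0} 1 = Cardinal.continuum.{0} → ∀ α : Ordinal.{0},
      Arrow α ↔ (Cardinal.aleph 1).ord * (Cardinal.aleph 1).ord * Ordinal.omega0 ≤ α) ∧
    (∀ α : Ordinal.{0},
      (Cardinal.aleph 1).ord * (Cardinal.aleph 1).ord * Ordinal.omega0 ≤ α → Arrow α) ∧
    (∃ (P : Type) (_ : Preorder P), Nonempty P ∧ ∀ p : P,
      p ∈ Pool.Agent.Helper292.ForceCH.OmegaOnePreserved P ∧
      p ∈ Pool.Agent.Helper292.ForceCH.CHHolds P) := by
  have hneg : Cardinal.aleph.{0} 1 = Cardinal.continuum.{0} → ∀ α : Ordinal.{0},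
      α < (Cardinal.aleph 1).ord * (Cardinal.aleph 1).ord * Ordinal.omega0 → ¬ Arrow α :=
    fun h α hα => Pool.Agent.TH769.K4Ord.negative h α hα
  have hpos : ∀ α : Ordinal.{0},
      (Cardinal.aleph 1).ord * (Cardinal.aleph 1).ord * Ordinal.omega0 ≤ α → Arrow α :=
    fun α hα => Pool.Agent.TH769.K4Ord.Arrow.mono hα Pool.Agent.TH769.K4Pos.positive
  refine ⟨fun h => hneg h _ ?_, fun h α => ⟨fun hA => ?_, hpos α⟩, hpos, ?_⟩
  · have h0 : (0 : Ordinal.{0}) < (Cardinal.aleph 1).ord * (Cardinal.aleph 1).ord :=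
      pos_iff_ne_zero.2 Pool.Agent.TH769.K4Ord.OmOm_ne
    calc (Cardinal.aleph 1).ord * (Cardinal.aleph 1).ord
        = (Cardinal.aleph 1).ord * (Cardinal.aleph 1).ord * 1 := (mul_one _).symm
      _ < (Cardinal.aleph 1).ord * (Cardinal.aleph 1).ord * Ordinal.omega0 :=
        (mul_lt_mul_iff_right₀ h0).2 Ordinal.one_lt_omega0
  · by_contra hcon
    exact hneg h α (not_le.1 hcon) hA
  · obtain ⟨P, i, h1, h2⟩ := Pool.Agent.Helper292.ForceCH.exists_forcing
    exact ⟨P, i, h1, fun p => ⟨(h2 p).1, (h2 p).2.2⟩⟩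

end Pool.Agent.Results.MP_185924_lc.ExactThreshold
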